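import Mathlib
import Pool.Agent.H39v.Fin3
import Pool.Agent.H39v.MinNe

set_option autoImplicit false

/-!
# Vojta's inequality on all smooth projective varieties with a birational morphism to `ℙ^N`: the
exceptional points are not more than the points of a hyperplane

Let `X` be any smooth projective variety over `ℚ` with a birational morphism `π : X → ℙ^N` (a
composition of blow-ups with smooth centres, for instance), `D = D_1 + ⋯ + D_q` any strict normal
crossings divisor of `X` over `ℚ` (strict transforms, exceptional divisors, ...) and `S` a finite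
set of primes. We embed `X` in `ℙ^N × ℙ^M` such that `π` is the first projection: `X` is given by
bihomogeneous equations `G k = 0` of the bidegrees `(aG k, bG k)`, smoothness is the Jacobian
criterion, `D_i` is the subscheme of `X` given by bihomogeneous equations `F i j = 0`, `j = 1, 2, ...`
of bidegrees `(aF i j, bF i j)`, and the inverse of `π` is the rational map
`x ↦ (x, (Ψ 0 x : ⋯ : Ψ M x))` with forms `Ψ j` of the same degree without common factor. Outside the
subset `Ψ = 0` of `ℙ^N` (this is the set where `π⁻¹` is not defined) the rational points `P` of `X`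
correspond to the rational points `x` of `ℙ^N`.

Vojta's conjecture: `m_{S,D}(P) + h_K(P) ≤ ε h_A(P) + O(1)` for all rational points `P` outside a
proper closed subset. Here `m_{S,D}` is the sum of the local heights of `D` at the places `∞` and
`p ∈ S`, and `K` the canonical divisor of `X`. One has `K = π^* K_{ℙ^N} + R` with the relative
canonical divisor `R`, `O(-R)` is the Fitting ideal of `Ω_{X/ℙ^N}`, it is generated by the minors of
order `M` of the matrix `(∂ G k / ∂ y_j)`. Hence `h_K = -(N + 1) h + h_R`, where `h_R(P)` is the sum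
over all places of `-log max |minor|_v / (|x|_v ^ a |y|_v ^ b)`.
-/

namespace Pool.Agent.Results.MP_17a322_nt.AllBlowUps

open MvPolynomial

variable {N M g q w : ℕ}

/-- `x` is a primitive integer vector; every rational point of `ℙ^N` is represented by exactly two
of them, `x` and `-x` -/
def IsPrimitive {n : ℕ} (x : Fin n → ℤ) : Prop := Finset.univ.gcd x = 1

/-- `max |x_i|`, the multiplicative height of the point given by a primitive `x` -/
def height {n : ℕ} (x : Fin n → ℤ) : ℕ := Finset.univ.sup (fun i => (x i).natAbs)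

/-- the polynomial `P` in the variables `x_0, ..., x_N` and `y_0, ..., y_M` is bihomogeneous: of
degree `a` in the `x_i` and of degree `b` in the `y_j` -/
def IsBihomogeneous (P : MvPolynomial (Fin (N + 1) ⊕ Fin (M + 1)) ℤ) (a b : ℕ) : Prop :=
  P.IsWeightedHomogeneous
      (Sum.elim (fun _ => 1) (fun _ => 0) : Fin (N + 1) ⊕ Fin (M + 1) → ℕ) a ∧
    P.IsWeightedHomogeneous
      (Sum.elim (fun _ => 0) (fun _ => 1) : Fin (N + 1) ⊕ Fin (M + 1) → ℕ) b

/-- The subscheme `X` of `ℙ^N × ℙ^M` with the equations `G k = 0` is smooth of codimension `M` and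
the divisor `D = ∑ D_i` of `X`, where `D_i` is the subscheme of `X` with the equations `F i j = 0`,
has strict normal crossings: at every complex point `(x, y)` of `X` there are `M` of the equations
`G k` and for every `D_i` through this point one of the equations `F i j` such that the gradients of
all these equations at `(x, y)` are linearly independent. -/
def SmoothPair (G : Fin g → MvPolynomial (Fin (N + 1) ⊕ Fin (M + 1)) ℤ)
    (F : Fin q → Fin w → MvPolynomial (Fin (N + 1) ⊕ Fin (M + 1)) ℤ) : Prop :=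
  ∀ (x : Fin (N + 1) → ℂ) (y : Fin (M + 1) → ℂ), x ≠ 0 → y ≠ 0 →
    (∀ k, aeval (Sum.elim x y) (G k) = 0) →
    ∃ (K : Fin M → Fin g) (J : Fin q → Fin w), LinearIndependent ℂ (Sum.elim
      (fun (m : Fin M) (s : Fin (N + 1) ⊕ Fin (M + 1)) =>
        aeval (Sum.elim x y) (pderiv s (G (K m))))
      (fun (i : {i : Fin q // ∀ j, aeval (Sum.elim x y) (F i j) = 0})
        (s : Fin (N + 1) ⊕ Fin (M + 1)) =>
        aeval (Sum.elim x y) (pderiv s (F i.1 (J i.1)))))

/-- The map `x ↦ (x, (Ψ 0 x : ⋯ : Ψ M x))` is a rational map from `ℙ^N` to `X`: the `Ψ j` are forms of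
the same degree `e`, not all zero, without common factor except constants, and `G k (x, Ψ x) = 0` -/
def IsInverse (Ψ : Fin (M + 1) → MvPolynomial (Fin (N + 1)) ℤ) (e : ℕ)
    (G : Fin g → MvPolynomial (Fin (N + 1) ⊕ Fin (M + 1)) ℤ) : Prop :=
  (∀ j, (Ψ j).IsHomogeneous e) ∧ (∃ j, Ψ j ≠ 0) ∧
    (∀ r : MvPolynomial (Fin (N + 1)) ℤ, (∀ j, r ∣ Ψ j) → r.totalDegree = 0) ∧
    ∀ k, aeval (Sum.elim X Ψ) (G k) = 0

/-- the primitive integer vector `y` proportional to `(Ψ 0 x, ..., Ψ M x)`: the point of `X` over `x`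
is `(x, y)` -/
noncomputable def lift (Ψ : Fin (M + 1) → MvPolynomial (Fin (N + 1)) ℤ) (x : Fin (N + 1) → ℤ) :
    Fin (M + 1) → ℤ :=
  fun j => eval x (Ψ j) / Finset.univ.gcd (fun i => eval x (Ψ i))

/-- the normalised absolute value of a form `P` of bidegree `(a, b)` at the point `(x, y)` -/
noncomputable def size (P : MvPolynomial (Fin (N + 1) ⊕ Fin (M + 1)) ℤ) (a b : ℕ)
    (x : Fin (N + 1) → ℤ) (y : Fin (M + 1) → ℤ) : ℝ :=
  |((eval (Sum.elim x y) P : ℤ) : ℝ)| / ((height x : ℝ) ^ a * (height y : ℝ) ^ b)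

/-- The proximity function `m_{S,D}` of `D = ∑ D_i` at the point `(x, y)` with primitive `x` and `y`:
the local height of `D_i` at `∞` is `-log max_j (|F i j (x, y)| / (|x| ^ a |y| ^ b))`, the local
height of `D_i` at `p` is `-log max_j |F i j (x, y)|_p`. -/
noncomputable def proximity
    (F : Fin q → Fin w → MvPolynomial (Fin (N + 1) ⊕ Fin (M + 1)) ℤ) (aF bF : Fin q → Fin w → ℕ)
    (S : Finset ℕ) (x : Fin (N + 1) → ℤ) (y : Fin (M + 1) → ℤ) : ℝ :=
  ∑ i, (-Real.log (⨆ j, size (F i j) (aF i j) (bF i j) x y) +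
    ∑ p ∈ S, (padicValInt p (Finset.univ.gcd fun j => eval (Sum.elim x y) (F i j)) : ℝ) *
      Real.log p)

/-- the minor of the matrix `(∂ G k / ∂ y_j)` with the rows `K` and all columns except `b`, at the
point `(x, y)` -/
noncomputable def minor (G : Fin g → MvPolynomial (Fin (N + 1) ⊕ Fin (M + 1)) ℤ)
    (K : Fin M → Fin g) (b : Fin (M + 1)) (x : Fin (N + 1) → ℤ) (y : Fin (M + 1) → ℤ) : ℤ :=
  (Matrix.of fun (m c : Fin M) =>
    eval (Sum.elim x y) (pderiv (Sum.inr (b.succAbove c)) (G (K m)))).det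

/-- The height `h_R` for the relative canonical divisor `R` of `X` over `ℙ^N`, at the point `(x, y)`
with primitive `x` and `y`; the minor with the rows `K` has the bidegree
`(∑ aG (K m), ∑ (bG (K m) - 1))`. The sum of the local heights at the primes is the logarithm of the
greatest common divisor of the minors. -/
noncomputable def relativeHeight
    (G : Fin g → MvPolynomial (Fin (N + 1) ⊕ Fin (M + 1)) ℤ) (aG bG : Fin g → ℕ)
    (x : Fin (N + 1) → ℤ) (y : Fin (M + 1) → ℤ) : ℝ :=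
  Real.log ((Finset.univ.gcd fun r : (Fin M → Fin g) × Fin (M + 1) =>
      minor G r.1 r.2 x y).natAbs : ℝ) -
    Real.log (⨆ r : (Fin M → Fin g) × Fin (M + 1), |(minor G r.1 r.2 x y : ℝ)| /
      ((height x : ℝ) ^ (∑ m, aG (r.1 m)) * (height y : ℝ) ^ (∑ m, (bG (r.1 m) - 1))))

/-- the height `h_K = -(N + 1) h + h_R` for the canonical divisor of `X` -/
noncomputable def canonicalHeight
    (G : Fin g → MvPolynomial (Fin (N + 1) ⊕ Fin (M + 1)) ℤ) (aG bG : Fin g → ℕ)
    (x : Fin (N + 1) → ℤ) (y : Fin (M + 1) → ℤ) : ℝ :=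
  -((N : ℝ) + 1) * Real.log (height x) + relativeHeight G aG bG x y

/-- the rational points `x` of height at most `B` of `ℙ^N` at which `π⁻¹` is defined such that the
point `P = (x, y)` of `X` over `x` does not lie on `D` and
`m_{S,D}(P) + h_K(P) ≥ -ε h(x) - c` -/
def exceptional (G : Fin g → MvPolynomial (Fin (N + 1) ⊕ Fin (M + 1)) ℤ) (aG bG : Fin g → ℕ)
    (Ψ : Fin (M + 1) → MvPolynomial (Fin (N + 1)) ℤ)
    (F : Fin q → Fin w → MvPolynomial (Fin (N + 1) ⊕ Fin (M + 1)) ℤ) (aF bF : Fin q → Fin w → ℕ)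
    (S : Finset ℕ) (ε c B : ℝ) : Set (Fin (N + 1) → ℤ) :=
  {x | IsPrimitive x ∧ (height x : ℝ) ≤ B ∧ (∃ j, eval x (Ψ j) ≠ 0) ∧
    (∀ i, ∃ j, eval (Sum.elim x (lift Ψ x)) (F i j) ≠ 0) ∧
    -ε * Real.log (height x) - c ≤
      proximity F aF bF S x (lift Ψ x) + canonicalHeight G aG bG x (lift Ψ x)}

lemma minor_eq (G : Fin g → MvPolynomial (Fin (N + 1) ⊕ Fin (M + 1)) ℤ)
    (K : Fin M → Fin g) (b : Fin (M + 1)) (x : Fin (N + 1) → ℤ) (y : Fin (M + 1) → ℤ) :
    minor G K b x y = Pool.Agent.H39v.minor G K b x y := rfl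

lemma height_eq {n : ℕ} (x : Fin n → ℤ) : height x = Pool.Agent.H39v.hgt x := rfl

open Pool.Agent.H39v in
lemma toExc (Ψ : Fin (M + 1) → MvPolynomial (Fin (N + 1)) ℤ) {e : ℕ}
    {G : Fin g → MvPolynomial (Fin (N + 1) ⊕ Fin (M + 1)) ℤ} (hΨ : IsInverse Ψ e G)
    {F : Fin q → Fin w → MvPolynomial (Fin (N + 1) ⊕ Fin (M + 1)) ℤ} (h : SmoothPair G F)
    (aG bG : Fin g → ℕ) (hG : ∀ k, IsBihomogeneous (G k) (aG k) (bG k))
    (aF bF : Fin q → Fin w → ℕ) (hF : ∀ i j, IsBihomogeneous (F i j) (aF i j) (bF i j))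
    (S : Finset ℕ) (hS : ∀ p ∈ S, p.Prime) (ε c B : ℝ) (x : Fin (N + 1) → ℤ)
    (hx : x ∈ exceptional G aG bG Ψ F aF bF S ε c B) :
    Exc Ψ G aG bG F aF bF (1 + ∑ i, ∑ j, norm1 (F i j)) S ((N : ℝ) + 1 - ε) c x := by
  classical
  obtain ⟨hx1, _, ⟨j0, hj0⟩, hx4, hx5⟩ := hx
  set y := lift Ψ x with hy
  set d : ℤ := Finset.univ.gcd (fun i => eval x (Ψ i)) with hd
  have hd0 : d ≠ 0 := by
    intro h0
    exact hj0 (Finset.gcd_eq_zero_iff.1 h0 j0 (Finset.mem_univ _))
  have hdn : ((d.natAbs : ℕ) : ℤ) = d := by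
    have h1 : normalize d = d := Finset.normalize_gcd
    rw [← Int.abs_eq_natAbs, Int.abs_eq_normalize, h1]
  have hxy : ∀ j, eval x (Ψ j) = (d.natAbs : ℤ) * y j := by
    intro j
    rw [hdn, hy, lift, ← hd]
    have h1 : d ∣ eval x (Ψ j) :=
      Finset.gcd_dvd (f := fun i => eval x (Ψ i)) (Finset.mem_univ j)
    exact (Int.mul_ediv_cancel' h1).symm
  have hy1 : Finset.univ.gcd y = 1 := by
    rw [hy]
    exact Finset.gcd_div_eq_one (Finset.mem_univ j0) hj0
  have hHx : (1 : ℝ) ≤ height x := by exact_mod_cast one_le_hgt hx1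
  have hHy : (1 : ℝ) ≤ height y := by exact_mod_cast one_le_hgt hy1
  obtain ⟨K0, b0, hmin⟩ := minor_ne h aG bG hG aF bF hF hΨ.2.2.2 x y (prim_ne hx1) d.natAbs hxy
    ⟨j0, hj0⟩
  rw [← minor_eq] at hmin
  set gR : ℤ := Finset.univ.gcd fun r : (Fin M → Fin g) × Fin (M + 1) =>
      minor G r.1 r.2 x y with hgR
  have hgR0 : gR ≠ 0 := by
    intro h0
    have h1 := Finset.gcd_eq_zero_iff.1 h0 (K0, b0) (Finset.mem_univ _)
    exact hmin h1
  set ρI : ℝ := ⨆ r : (Fin M → Fin g) × Fin (M + 1), |(minor G r.1 r.2 x y : ℝ)| /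
      ((height x : ℝ) ^ (∑ m, aG (r.1 m)) * (height y : ℝ) ^ (∑ m, (bG (r.1 m) - 1))) with hρI
  have hρIle : ∀ K b, |(minor G K b x y : ℝ)| / ((height x : ℝ) ^ (∑ m, aG (K m)) *
      (height y : ℝ) ^ (∑ m, (bG (K m) - 1))) ≤ ρI := by
    intro K b
    have h1 := le_ciSup (f := fun r : (Fin M → Fin g) × Fin (M + 1) =>
      |(minor G r.1 r.2 x y : ℝ)| /
      ((height x : ℝ) ^ (∑ m, aG (r.1 m)) * (height y : ℝ) ^ (∑ m, (bG (r.1 m) - 1))))
      (Set.finite_range _).bddAbove (K, b)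
    exact h1
  have hρI0 : 0 < ρI := by
    refine lt_of_lt_of_le ?_ (hρIle K0 b0)
    have : (0 : ℝ) < |(minor G K0 b0 x y : ℝ)| := abs_pos.2 (by exact_mod_cast hmin)
    positivity
  set ρF : Fin q → ℝ := fun i => ⨆ j, size (F i j) (aF i j) (bF i j) x y with hρF
  have hρFle : ∀ i j, size (F i j) (aF i j) (bF i j) x y ≤ ρF i := fun i j =>
    le_ciSup (f := fun j => size (F i j) (aF i j) (bF i j) x y) (Set.finite_range _).bddAbove j
  have hρF0 : ∀ i, 0 < ρF i := by
    intro i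
    obtain ⟨j, hj⟩ := hx4 i
    refine lt_of_lt_of_le ?_ (hρFle i j)
    have : (0 : ℝ) < |((eval (Sum.elim x y) (F i j) : ℤ) : ℝ)| := abs_pos.2 (by exact_mod_cast hj)
    unfold size
    positivity
  set gF : Fin q → ℤ := fun i => Finset.univ.gcd fun j => eval (Sum.elim x y) (F i j) with hgF
  set ρP : ℕ → Fin q → ℝ := fun p i => ((p : ℝ) ^ (padicValInt p (gF i)))⁻¹ with hρP
  refine ⟨y, d.natAbs, gR.natAbs, ρI, ρF, ρP, hx1, hy1, Int.natAbs_pos.2 hd0,
    Int.natAbs_pos.2 hgR0, hxy, hρI0, ?_, ?_, hρF0, ?_, ?_, ?_, ?_, ?_, ?_⟩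
  · intro K b
    have h1 := hρIle K b
    rw [div_le_iff₀ (by positivity)] at h1
    rw [← minor_eq, ← height_eq, ← height_eq]
    exact h1
  · intro K b
    have h1 := Finset.gcd_dvd (f := fun r : (Fin M → Fin g) × Fin (M + 1) =>
      minor G r.1 r.2 x y) (Finset.mem_univ (K, b))
    rw [← hgR] at h1
    simp only [minor_eq] at h1
    rw [Int.natAbs_dvd]
    exact h1
  · intro i
    obtain ⟨j, hj⟩ := hx4 i
    haveI : Nonempty (Fin w) := ⟨j⟩
    refine ciSup_le fun j => ?_
    have h1 := eval_le (hF i j) x y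
    rw [← height_eq, ← height_eq] at h1
    have h2 : size (F i j) (aF i j) (bF i j) x y ≤ norm1 (F i j) := by
      unfold size
      rw [div_le_iff₀ (by positivity)]
      exact h1
    have h3 : norm1 (F i j) ≤ ∑ j, norm1 (F i j) :=
      Finset.single_le_sum (f := fun j => norm1 (F i j)) (fun _ _ => norm1_nonneg _)
        (Finset.mem_univ j)
    have h4 : ∑ j, norm1 (F i j) ≤ ∑ i, ∑ j, norm1 (F i j) :=
      Finset.single_le_sum (f := fun i => ∑ j, norm1 (F i j))
        (fun _ _ => Finset.sum_nonneg fun _ _ => norm1_nonneg _) (Finset.mem_univ i)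
    linarith
  · intro i j
    have h1 := hρFle i j
    unfold size at h1
    rw [div_le_iff₀ (by positivity)] at h1
    rw [← height_eq, ← height_eq]
    exact h1
  · intro p hp i
    have : (0 : ℝ) < p := by exact_mod_cast (hS p hp).pos
    simp only [hρP]
    positivity
  · intro p hp i
    have : (1 : ℝ) ≤ p := by exact_mod_cast (hS p hp).one_lt.le
    simp only [hρP]
    exact inv_le_one_of_one_le₀ (one_le_pow₀ this)
  · intro p hp i j
    haveI : Fact p.Prime := ⟨hS p hp⟩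
    have h1 : ((p ^ padicValInt p (gF i) : ℕ) : ℤ) ∣ eval (Sum.elim x y) (F i j) := by
      have h2 : ((p ^ padicValInt p (gF i) : ℕ) : ℤ) ∣ gF i := by
        push_cast
        exact padicValInt_dvd _
      exact h2.trans (Finset.gcd_dvd (f := fun j => eval (Sum.elim x y) (F i j))
        (Finset.mem_univ j))
    rw [padicNorm.dvd_iff_norm_le] at h1
    have h2 : (padicNorm p ((eval (Sum.elim x y) (F i j) : ℤ) : ℚ) : ℝ) ≤
        (((p : ℚ) ^ (-(padicValInt p (gF i) : ℤ)) : ℚ) : ℝ) := by exact_mod_cast h1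
    refine h2.trans (le_of_eq ?_)
    simp only [hρP]
    push_cast
    rw [zpow_neg, zpow_natCast]
  · have h1 : proximity F aF bF S x y = ∑ i, -Real.log (ρF i) +
        ∑ p ∈ S, ∑ i, -Real.log (ρP p i) := by
      unfold proximity
      rw [Finset.sum_add_distrib, Finset.sum_comm]
      congr 1
      refine Finset.sum_congr rfl fun p _ => Finset.sum_congr rfl fun i _ => ?_
      simp only [hρP]
      rw [Real.log_inv, Real.log_pow, neg_neg]
    rw [h1] at hx5
    unfold canonicalHeight relativeHeight at hx5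
    rw [← hgR, ← hρI] at hx5
    rw [← height_eq]
    linarith

/-- **Main theorem.** Let `X ⊂ ℙ^N × ℙ^M` be a smooth projective variety over `ℚ`, birational over
`ℙ^N`, `D` any strict normal crossings divisor on `X` and `S` any finite set of primes. Then for
`0 ≤ ε ≤ N + 1`, real `c` and `δ > 0`, at most `C B ^ (N + ε / (N + 1) + δ)` rational points `P` of
`X` off `D` at which `π` is invertible with `H(π(P)) ≤ B` satisfy `m_{S,D}(P) + h_K(P) ≥ -ε h(π(P)) - c`.
In particular (`ε = 0`) Vojta's inequality `m_{S,D}(P) + h_K(P) ≤ η h_A(P) + O(1)`, for all `η > 0`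
and ample `A`, holds up to `C B ^ (N + δ)` points; a hyperplane has `≍ B ^ N` points, and there are
`≍ B ^ (N + 1)` points altogether. -/
theorem result (N M g q w : ℕ)
    (G : Fin g → MvPolynomial (Fin (N + 1) ⊕ Fin (M + 1)) ℤ) (aG bG : Fin g → ℕ)
    (hG : ∀ k, IsBihomogeneous (G k) (aG k) (bG k))
    (Ψ : Fin (M + 1) → MvPolynomial (Fin (N + 1)) ℤ) (e : ℕ) (hΨ : IsInverse Ψ e G)
    (F : Fin q → Fin w → MvPolynomial (Fin (N + 1) ⊕ Fin (M + 1)) ℤ) (aF bF : Fin q → Fin w → ℕ)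
    (hF : ∀ i j, IsBihomogeneous (F i j) (aF i j) (bF i j)) (hGF : SmoothPair G F)
    (S : Finset ℕ) (hS : ∀ p ∈ S, p.Prime)
    (ε c δ : ℝ) (hε : 0 ≤ ε) (hεN : ε ≤ (N : ℝ) + 1) (hδ : 0 < δ) :
    ∃ C : ℝ, 0 < C ∧ ∀ B : ℝ, 1 ≤ B →
      (exceptional G aG bG Ψ F aF bF S ε c B).Finite ∧
      ((exceptional G aG bG Ψ F aF bF S ε c B).ncard : ℝ) ≤
        C * B ^ ((N : ℝ) + ε / ((N : ℝ) + 1) + δ) := by
  classical
  have hN1 : (0 : ℝ) < (N : ℝ) + 1 := by positivity
  have hC1 : (1 : ℝ) ≤ 1 + ∑ i, ∑ j, Pool.Agent.H39v.norm1 (F i j) := by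
    have : 0 ≤ ∑ i, ∑ j, Pool.Agent.H39v.norm1 (F i j) :=
      Finset.sum_nonneg fun _ _ => Finset.sum_nonneg fun _ _ => Pool.Agent.H39v.norm1_nonneg _
    linarith
  obtain ⟨C, hC, h⟩ := Pool.Agent.H39v.count_main hΨ.1 hΨ.2.1 hΨ.2.2.1 (F := F) hGF aG bG hG
    hΨ.2.2.2 aF bF hF _ hC1 S hS ((N : ℝ) + 1 - ε) c δ (by linarith) hδ
  have hexp : max 0 (1 - ((N : ℝ) + 1 - ε) / ((N : ℝ) + 1)) = ε / ((N : ℝ) + 1) := by
    rw [sub_div, div_self hN1.ne']
    rw [max_eq_right]
    · ring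
    · have : 0 ≤ ε / ((N : ℝ) + 1) := by positivity
      linarith
  rw [hexp] at h
  refine ⟨C, hC, fun B hB => ?_⟩
  have hfin : (exceptional G aG bG Ψ F aF bF S ε c B).Finite := by
    refine Set.Finite.subset (Finset.finite_toSet
      (Fintype.piFinset (fun _ : Fin (N + 1) => Finset.Icc (-(⌊B⌋₊ : ℤ)) ⌊B⌋₊))) ?_
    intro x hx
    rw [Finset.mem_coe, Fintype.mem_piFinset]
    intro i
    rw [Finset.mem_Icc]
    have h1 : (x i).natAbs ≤ height x :=
      Finset.le_sup (f := fun i => (x i).natAbs) (Finset.mem_univ i)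
    have h2 : height x ≤ ⌊B⌋₊ := Nat.le_floor hx.2.1
    omega
  refine ⟨hfin, ?_⟩
  rw [Set.ncard_eq_toFinset_card _ hfin]
  refine h B hB _ fun x hx => ?_
  rw [Set.Finite.mem_toFinset] at hx
  exact ⟨hx.2.1, toExc Ψ hΨ hGF aG bG hG aF bF hF S hS ε c B x hx⟩

end Pool.Agent.Results.MP_17a322_nt.AllBlowUps
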