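import Mathlib
import Pool.Agent.H7C.GlobB

set_option autoImplicit false

/-!
# Normal crossings divisors of the plane: full local heights near algebraic points

`D = ∑ D_i` is a divisor of `ℙ²` over a number field `K ⊇ k` with strict normal crossings, the
components `D_i = {F_i = 0}` have arbitrary degrees `d_i`. `P` is an arbitrary finite set of points of
`ℙ²(K)`. For `y ∈ P` on `D_i` let `m_i(y) ≥ 2` be the intersection multiplicity at `y` of `D_i` and its
tangent line.

For `S`-integral points and other points of `ℙ²(k)` the inequality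
`∑_{v ∈ S} ∑_i λ_{D_i,v}(x) / d_i ≤ (3 + ε) h(x) + C` is known (Corvaja and Zannier, Evertse and Ferretti),
whereas Vojta's conjecture predicts the same with `λ_{D_i,v}(x)` instead of `λ_{D_i,v}(x) / d_i`. The
theorem replaces, for each choice of points `y_v ∈ P`, the local height `λ / d_i` by
`λ / d_i + (1 - 1 / d_i) min(λ, m_i(y_v) λ_{y_v,v}(x))`, which is the full `λ` if `λ` is at most
`m_i(y_v)` times the local height of the point `y_v`, and adds `2 - #{i : y_v ∈ D_i}` times the local height
of `y_v` (the contribution of the places in `S` of the exceptional divisor in Vojta's inequality for the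
blow-up of `P` and the strict transform of `D` together with the exceptional divisor).
-/

namespace Pool.Agent.Results.MP_17a322_nt.ContactWeights

open NumberField IsDedekindDomain

/-- The places of a number field: the archimedean places and the primes. -/
abbrev Place (k : Type) [Field k] [NumberField k] : Type :=
  InfinitePlace k ⊕ HeightOneSpectrum (𝓞 k)

/-- The absolute value of a place: the usual one for an archimedean place, and `(N p) ^ (-ord_p x)`
for a prime `p`. -/
noncomputable def Place.value {k : Type} [Field k] [NumberField k] (v : Place k) (x : k) : ℝ :=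
  match v with
  | Sum.inl w => w x
  | Sum.inr p => FinitePlace.mk p x

/-- The multiplicity: `1` for a real place, `2` for a complex place, `1` for a prime. -/
noncomputable def Place.mult {k : Type} [Field k] [NumberField k] (v : Place k) : ℝ :=
  match v with
  | Sum.inl w => w.mult
  | Sum.inr _ => 1

variable {K : Type} [Field K] {r : ℕ}

/-- `D = ∑ {F i = 0}` has strict normal crossings: at each point of `ℙ²`, over each extension field,
the gradients of the equations of the components through the point are linearly independent. -/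
def IsNormalCrossings (F : Fin r → MvPolynomial (Fin 3) K) : Prop :=
  ∀ (L : Type) [Field L] [Algebra K L] (x : Fin 3 → L), x ≠ 0 →
    LinearIndependent L (fun (i : {i : Fin r // MvPolynomial.aeval x (F i) = 0})
      (j : Fin 3) => MvPolynomial.aeval x (MvPolynomial.pderiv j (F i)))

/-- The intersection multiplicity at `y` of the curve `F = 0` and its tangent line at `y` is at least
`m`: on the lines through `y` in tangent direction, over each extension field, `F` has a zero of order at
least `m` at `y`. -/
def HasContact (F : MvPolynomial (Fin 3) K) (y : Fin 3 → K) (m : ℕ) : Prop :=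
  ∀ (L : Type) [Field L] [Algebra K L] (z : Fin 3 → L),
    ∑ j, MvPolynomial.aeval (fun i => algebraMap K L (y i)) (MvPolynomial.pderiv j F) * z j = 0 →
    Polynomial.X ^ m ∣ MvPolynomial.aeval (fun j => Polynomial.C (algebraMap K L (y j)) +
      Polynomial.X * Polynomial.C (z j)) F

variable [NumberField K]

/-- The local height of the curve `F = 0` of degree `d` at `x`. -/
noncomputable def height (w : Place K) (d : ℕ) (F : MvPolynomial (Fin 3) K)
    (x : Fin 3 → K) : ℝ :=
  Real.log ((⨆ j, w.value (x j)) ^ d / w.value (MvPolynomial.eval x F))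

/-- The local height of the point `y` at `x`. -/
noncomputable def pointHeight (w : Place K) (y x : Fin 3 → K) : ℝ :=
  Real.log (⨆ j, w.value (x j)) + Real.log (⨆ j, w.value (y j)) -
    Real.log (⨆ p : Fin 3 × Fin 3, w.value (x p.1 * y p.2 - x p.2 * y p.1))

/-- The contribution of the component `F = 0` of degree `d`: with `λ` its local height and `μ` the local
height of the point `y`, `λ / d + (1 - 1 / d) min(λ, m μ)`. -/
noncomputable def contribution (w : Place K) (d : ℕ) (F : MvPolynomial (Fin 3) K) (m : ℕ)
    (y x : Fin 3 → K) : ℝ :=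
  1 / d * height w d F x + (1 - 1 / d) * min (height w d F x) (m * pointHeight w y x)

/-- Let `D = ∑ {F i = 0}` be a strict normal crossings divisor of `ℙ²` over the number field `K ⊇ k`
with components of arbitrary degrees `d i ≥ 1`, `P` a finite set of points over `K`, and `m i y ≤ 2` or the
curve `F i = 0` and its tangent line at `y` of intersection multiplicity at least `m i y` at `y`,
for `y ∈ P` on `F i = 0`. Let `S` be a finite set of places of `k`, for `v ∈ S` let `w v` be a place of
`K` above `v` (`|.|_{w v} ^ t v` is the extension of `|.|_v` to `K`), and `ε > 0`. There are finitely many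
curves `Z` over `k` and a `C` such that for all points `x` of `ℙ²(k)` off `Z` and `D` and all `y v ∈ P`
(`v ∈ S`) the sum over `v ∈ S` of the contributions of the components and of
`2 - #{i : F i (y v) = 0}` times the local height of `y v` is at most `(3 + ε) h(x) + C`. (All heights are
relative to `k`, not divided by `[k : ℚ]`.) -/
theorem result (k K : Type) [Field k] [NumberField k] [Field K] [NumberField K] [Algebra k K]
    {r : ℕ} (F : Fin r → MvPolynomial (Fin 3) K) (d : Fin r → ℕ) (hd : ∀ i, 1 ≤ d i)
    (hF : ∀ i, (F i).IsHomogeneous (d i)) (hnc : IsNormalCrossings F)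
    (P : Finset (Fin 3 → K)) (hP : ∀ y ∈ P, y ≠ 0) (m : Fin r → (Fin 3 → K) → ℕ)
    (hm : ∀ y ∈ P, ∀ i, MvPolynomial.eval y (F i) = 0 → m i y ≤ 2 ∨ HasContact (F i) y (m i y))
    (S : Finset (Place k)) (w : Place k → Place K) (t : Place k → ℝ)
    (hw : ∀ v ∈ S, 0 < t v ∧ ∀ a : k, (w v).value (algebraMap k K a) ^ t v = v.value a)
    (ε : ℝ) (hε : 0 < ε) :
    ∃ (Z : Finset (MvPolynomial (Fin 3) k)) (C : ℝ),
      (∀ G ∈ Z, G ≠ 0 ∧ ∃ s, G.IsHomogeneous s) ∧ ∀ x : Fin 3 → k, x ≠ 0 →
        (∀ G ∈ Z, MvPolynomial.eval x G ≠ 0) →
        (∀ i, MvPolynomial.eval (fun j => algebraMap k K (x j)) (F i) ≠ 0) →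
        ∀ y : Place k → Fin 3 → K, (∀ v ∈ S, y v ∈ P) →
          ∑ v ∈ S, v.mult * (t v * (∑ i, contribution (w v) (d i) (F i) (m i (y v)) (y v)
            (fun j => algebraMap k K (x j)) +
            (2 - Nat.card {i // MvPolynomial.eval (y v) (F i) = 0} : ℝ) *
              pointHeight (w v) (y v) (fun j => algebraMap k K (x j)))) ≤
            (3 + ε) * Height.logHeight x + C := by
  classical
  have hval : ∀ (k : Type) [Field k] [NumberField k] (v : Place k) (a : k),
      v.value a = Pool.Agent.W180.OP.av v a := by
    intro k _ _ v a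
    rcases v with v | p
    · rfl
    · rfl
  have hmul : ∀ v : Place k, v.mult = Pool.Agent.W180.OP.wt v := by
    intro v
    rcases v with v | p
    · rfl
    · rfl
  have hpt : ∀ (w : Place K) (y x : Fin 3 → K), pointHeight w y x =
      H7V1.ly (Pool.Agent.W180.OP.av w) y x := by
    intro w y x
    unfold pointHeight
    simp only [hval]
    rfl
  have hht : ∀ (w : Place K) (d : ℕ) (F : MvPolynomial (Fin 3) K) (x : Fin 3 → K),
      height w d F x = Pool.Agent.W180.OP.lam (Pool.Agent.W180.OP.av w) d F x := by
    intro w d F x
    unfold height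
    simp only [hval]
    rfl
  have hcon : ∀ (y : Place k → Fin 3 → K) (x : Fin 3 → K) v i,
      contribution (w v) (d i) (F i) (m i (y v)) (y v) x =
        H7C.tm (Pool.Agent.W180.OP.av (w v)) F d m (y v) x i := by
    intro y x v i
    unfold contribution H7C.tm
    rw [hht, hpt]
  -- all choices of the points
  obtain ⟨yy, hyy⟩ : ∃ yy : (S → P) → Place k → Fin 3 → K,
      ∀ s v (hv : v ∈ S), yy s v = (s ⟨v, hv⟩).1 :=
    ⟨fun s v => if hv : v ∈ S then (s ⟨v, hv⟩).1 else 0, fun s v hv => dif_pos hv⟩
  have h1 := fun s : S → P => H7C.globB (k := k) (K := K) hF hnc hd hP hm S w t (yy s)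
    (fun v hv => ⟨(hw v hv).1, fun a => by
      have := (hw v hv).2 a
      rw [hval, hval] at this
      exact this, by
      rw [hyy s v hv]
      exact (s ⟨v, hv⟩).2⟩) ε hε
  choose Z C hZ hC using h1
  refine ⟨Finset.univ.biUnion Z, ∑ s, |C s|, ?_, fun x hx hZx hFx y hy => ?_⟩
  · intro G hG
    obtain ⟨s, -, hs⟩ := Finset.mem_biUnion.1 hG
    exact hZ s G hs
  have h2 := hC (fun v => ⟨y v.1, hy v.1 v.2⟩) x hx (fun G hG => hZx G (Finset.mem_biUnion.2
    ⟨_, Finset.mem_univ _, hG⟩)) hFx
  have h3 : C (fun v => ⟨y v.1, hy v.1 v.2⟩) ≤ ∑ s, |C s| :=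
    (le_abs_self _).trans (Finset.single_le_sum (f := fun s => |C s|)
      (fun _ _ => abs_nonneg _) (Finset.mem_univ _))
  refine le_trans (le_of_eq (Finset.sum_congr rfl fun v hv => ?_)) (h2.trans (by linarith))
  rw [hyy _ v hv, hmul]
  simp only [hcon, hpt]
  rfl

end Pool.Agent.Results.MP_17a322_nt.ContactWeights
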