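import Mathlib
import Pool.Agent.H7C.Fin

set_option autoImplicit false

/-!
# The subspace theorem with a hypersurface at each place

Let `K ⊇ k` be number fields and `S` a finite set of places of `k`, with a place `w v` of `K` above each
`v ∈ S`. For each `v ∈ S` let `L 0, …, L N` be linearly independent linear forms over `K`, `{F = 0}` a
hypersurface of degree `d`, `F = Q(L 0, …, L N)`, and `e` a vertex of the Newton polytope of `Q`. All of
these may depend on `v`. For example `e = (d - 1, 1, 0, …, 0)` if the hypersurface passes through the point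
`L 1 = … = L N = 0` with the tangent hyperplane `L 1 = 0`.

The theorem adds to the local heights of the `N + 1` hyperplanes in Schmidt's subspace theorem the
term `(1 / d) log⁺ (|L 0 (x)| ^ e_0 ⋯ |L N (x)| ^ e_N / |F x|)`, with the same right hand side
`(N + 1 + ε) h(x) + C`, for all points of `ℙ^N(k)` off finitely many hypersurfaces over `k`.
-/

namespace Pool.Agent.Results.MP_17a322_nt.NewtonVertex

open NumberField IsDedekindDomain

/-- The places of a number field: the archimedean places and the primes. -/
abbrev Place (k : Type) [Field k] [NumberField k] : Type :=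
  InfinitePlace k ⊕ HeightOneSpectrum (𝓞 k)

/-- The absolute value of a place: the usual one for an archimedean place, and `(N p) ^ (-ord_p x)`
for a prime `p`. -/
noncomputable def Place.value {k : Type} [Field k] [NumberField k] (v : Place k) (x : k) : ℝ :=
  match v with
  | Sum.inl w => w x
  | Sum.inr p => FinitePlace.mk p x

/-- The multiplicity: `1` for a real place, `2` for a complex place, `1` for a prime. -/
noncomputable def Place.mult {k : Type} [Field k] [NumberField k] (v : Place k) : ℝ :=
  match v with
  | Sum.inl w => w.mult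
  | Sum.inr _ => 1

variable {K : Type} [Field K] {N : ℕ}

/-- `e` is a vertex of the Newton polytope of `Q`: the coefficient of `X ^ e` is not zero and some linear
functional `ω` with nonnegative integer coefficients is smaller at `e` than at all other exponents of
`Q`. (For homogeneous `Q` the coefficients of an arbitrary linear functional can be made nonnegative and
integral.) -/
def IsVertex (Q : MvPolynomial (Fin (N + 1)) K) (e : Fin (N + 1) →₀ ℕ) : Prop :=
  MvPolynomial.coeff e Q ≠ 0 ∧ ∃ ω : Fin (N + 1) → ℕ, ∀ m ∈ Q.support, m ≠ e →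
    ∑ a, ω a * e a < ∑ a, ω a * m a

/-- The value at `x` of the linear form with coefficients `b`. -/
def form (b x : Fin (N + 1) → K) : K := ∑ j, b j * x j

variable [NumberField K]

/-- The local height at `x` of the hyperplane with coefficients `b`. -/
noncomputable def height (w : Place K) (b x : Fin (N + 1) → K) : ℝ :=
  Real.log ((⨆ j, w.value (x j)) / w.value (form b x))

/-- The excess `log⁺ (|L 0 (x)| ^ e_0 ⋯ |L N (x)| ^ e_N / |Q (L 0 (x), …, L N (x))|)`. -/
noncomputable def excess (w : Place K) (L : Fin (N + 1) → Fin (N + 1) → K)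
    (Q : MvPolynomial (Fin (N + 1)) K) (e : Fin (N + 1) →₀ ℕ) (x : Fin (N + 1) → K) : ℝ :=
  max 0 (Real.log ((∏ a, w.value (form (L a) x) ^ e a) /
    w.value (MvPolynomial.eval (fun a => form (L a) x) Q)))

/-- Let `K ⊇ k` be number fields, `S` a finite set of places of `k`, and for `v ∈ S` let `w v` be a place
of `K` above `v` (`|.|_{w v} ^ t v` is the extension of `|.|_v` to `K`), `L v 0, …, L v N` linearly
independent linear forms over `K`, `Q v` homogeneous of degree `d v ≥ 1` over `K`, and `e v` a
vertex of the Newton polytope of `Q v`. Let `ε > 0`. There are finitely many hypersurfaces over `k` and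
a `C` such that for all points `x` of `ℙ^N(k)` off these hypersurfaces the `L v a (x)` and the
`F v (x) = Q v (L v 0 (x), …, L v N (x))` are not zero and the sum over `v ∈ S` of the local heights of
`L v 0, …, L v N` and of `1 / d v` times the excess of `F v` is at most `(N + 1 + ε) h(x) + C`. (All heights are
relative to `k`, not divided by `[k : ℚ]`.) -/
theorem result (k K : Type) [Field k] [NumberField k] [Field K] [NumberField K] [Algebra k K]
    (N : ℕ) (S : Finset (Place k)) (w : Place k → Place K) (t : Place k → ℝ)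
    (hw : ∀ v ∈ S, 0 < t v ∧ ∀ a : k, (w v).value (algebraMap k K a) ^ t v = v.value a)
    (L : Place k → Fin (N + 1) → Fin (N + 1) → K) (hL : ∀ v ∈ S, LinearIndependent K (L v))
    (d : Place k → ℕ) (hd : ∀ v ∈ S, 1 ≤ d v) (Q : Place k → MvPolynomial (Fin (N + 1)) K)
    (hQ : ∀ v ∈ S, (Q v).IsHomogeneous (d v)) (e : Place k → Fin (N + 1) →₀ ℕ)
    (he : ∀ v ∈ S, IsVertex (Q v) (e v)) (ε : ℝ) (hε : 0 < ε) :
    ∃ (Z : Finset (MvPolynomial (Fin (N + 1)) k)) (C : ℝ),
      (∀ G ∈ Z, G ≠ 0 ∧ ∃ s, G.IsHomogeneous s) ∧ ∀ x : Fin (N + 1) → k, x ≠ 0 →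
        (∀ G ∈ Z, MvPolynomial.eval x G ≠ 0) →
        (∀ v ∈ S, (∀ a, form (L v a) (fun j => algebraMap k K (x j)) ≠ 0) ∧
          MvPolynomial.eval (fun a => form (L v a) (fun j => algebraMap k K (x j))) (Q v) ≠ 0) ∧
        ∑ v ∈ S, v.mult * (t v * (∑ a, height (w v) (L v a) (fun j => algebraMap k K (x j)) +
          excess (w v) (L v) (Q v) (e v) (fun j => algebraMap k K (x j)) / d v)) ≤
          (N + 1 + ε) * Height.logHeight x + C := by
  classical
  have hval : ∀ (k : Type) [Field k] [NumberField k] (v : Place k) (a : k),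
      v.value a = Pool.Agent.W180.OP.av v a := by
    intro k _ _ v a
    rcases v with v | p
    · rfl
    · rfl
  have hmul : ∀ v : Place k, v.mult = Pool.Agent.W180.OP.wt v := by
    intro v
    rcases v with v | p
    · rfl
    · rfl
  have hω : ∀ v, ∃ ω : Fin (N + 1) → ℕ, v ∈ S → ∀ m ∈ (Q v).support, m ≠ e v →
      ∑ a, ω a * e v a < ∑ a, ω a * m a := by
    intro v
    by_cases hv : v ∈ S
    · obtain ⟨ω, h⟩ := (he v hv).2
      exact ⟨ω, fun _ => h⟩
    · exact ⟨0, fun h => absurd h hv⟩
  choose ω hω using hω
  obtain ⟨Z, C, hZ, hC⟩ := H7C.globA (k := k) (K := K) (n := N + 1) (by omega) S w t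
    (fun v hv => ⟨(hw v hv).1, fun a => by
      have := (hw v hv).2 a
      rw [hval, hval] at this
      exact this⟩) L (by
      intro v hv
      have h1 : LinearIndependent K (Matrix.of (L v)).row := hL v hv
      rw [Matrix.linearIndependent_rows_iff_isUnit] at h1
      exact ((Matrix.isUnit_iff_isUnit_det _).1 h1).ne_zero) Q d
    (fun v hv => Nat.lt_of_lt_of_le Nat.zero_lt_one (hd v hv)) hQ e (fun v hv => (he v hv).1) ω hω ε hε
  refine ⟨Z, C, hZ, fun x hx hZx => ?_⟩
  obtain ⟨h1, h2, h3⟩ := hC x hx hZx
  refine ⟨fun v hv => ⟨h1 v hv, h2 v hv⟩, ?_⟩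
  have hxK : R405.exv K x ≠ 0 := R405.exv_ne hx
  push_cast at h3
  refine le_trans (le_of_eq (Finset.sum_congr rfl fun v hv => ?_)) h3
  rw [hmul]
  congr 1
  congr 1
  have hn : 0 < W180.OP.nrm (W180.OP.av (w v)) (R405.exv K x) := W180.OP.nrm_pos _ hxK
  congr 1
  · refine Finset.sum_congr rfl fun a _ => ?_
    unfold height H7V1.ph
    simp only [hval]
    exact Real.log_div hn.ne' ((W180.OP.av (w v)).pos_iff.2 (h1 v hv a)).ne'
  · congr 1
    unfold excess H7C.rho
    simp only [hval]
    congr 1
    have h4 : ∀ a, form (L v a) (fun j => algebraMap k K (x j)) =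
      R405.dot (L v a) (R405.exv K x) := fun a => rfl
    simp only [h4]
    rw [Real.log_div (Finset.prod_ne_zero_iff.2 fun a _ => pow_ne_zero _
      ((W180.OP.av (w v)).pos_iff.2 (h1 v hv a)).ne')
      ((W180.OP.av (w v)).pos_iff.2 (h2 v hv)).ne', Real.log_prod (fun a _ => pow_ne_zero _
      ((W180.OP.av (w v)).pos_iff.2 (h1 v hv a)).ne')]
    congr 1
    refine Finset.sum_congr rfl fun a _ => ?_
    rw [Real.log_pow]

end Pool.Agent.Results.MP_17a322_nt.NewtonVertex
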