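import Pool.Agent.H41N.VP.Shell3
import Pool.Agent.H41N.VP.Low3

set_option autoImplicit false

/-!
# Vojta's inequality on `ℙ^N` fails for fewer points than the points of a hyperplane, by a power

`D = D_1 + ⋯ + D_q` is a divisor of `ℙ^N` over `ℚ`, `D_j` the hypersurface `F j = 0` of degree `d j`,
`S` a finite set of primes.
-/

namespace Pool.Agent.Results.MP_17a322_nt.PowerSaving

/-- `x` is a primitive integer vector; every rational point of `ℙ^N` is represented by exactly two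
of them, `x` and `-x` -/
def IsPrimitive {N : ℕ} (x : Fin (N + 1) → ℤ) : Prop :=
  Finset.univ.gcd x = 1

/-- `max |x_i|`, the multiplicative height of the point given by a primitive `x` -/
def height {N : ℕ} (x : Fin (N + 1) → ℤ) : ℕ :=
  Finset.univ.sup (fun i => (x i).natAbs)

/-- The proximity function `m_{S,D}(x)` of the divisor `D` with the components `F j = 0` of degrees
`d j`, for the places `∞` and `p ∈ S`, at a primitive `x` off `D`: the local height of `F j = 0` at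
`∞` is `log (max |x_i| ^ d j / |F j x|)`, the local height at `p` is
`log (1 / |F j x|_p) = ord_p (F j x) log p`. -/
noncomputable def proximity {N q : ℕ} (F : Fin q → MvPolynomial (Fin (N + 1)) ℤ) (d : Fin q → ℕ)
    (S : Finset ℕ) (x : Fin (N + 1) → ℤ) : ℝ :=
  ∑ j, (Real.log ((height x : ℝ) ^ d j / |((MvPolynomial.eval x (F j) : ℤ) : ℝ)|) +
    ∑ p ∈ S, (padicValInt p (MvPolynomial.eval x (F j)) : ℝ) * Real.log p)

/-- The divisor `∑ j, {F j = 0}` has strict normal crossings at its points over the field `K`: at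
every point `z` the gradients of those `F j` that vanish at `z` are linearly independent, so these
components are smooth at `z` and meet transversally. -/
def NormalCrossingsOver {N q : ℕ} (F : Fin q → MvPolynomial (Fin (N + 1)) ℤ) (K : Type) [Field K] :
    Prop :=
  ∀ z : Fin (N + 1) → K, z ≠ 0 →
    LinearIndependent K (fun j : {j : Fin q // MvPolynomial.aeval z (F j) = 0} =>
      fun i => MvPolynomial.aeval z (MvPolynomial.pderiv i (F j.1)))

/-- At every point `z` over the field `K` each component `F j = 0` through `z` is smooth at `z`, and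
there are at most `r` such components. They may be tangent to each other. -/
def MeetAtMost {N q : ℕ} (F : Fin q → MvPolynomial (Fin (N + 1)) ℤ) (r : ℕ) (K : Type) [Field K] :
    Prop :=
  ∀ z : Fin (N + 1) → K, z ≠ 0 →
    (∀ j, MvPolynomial.aeval z (F j) = 0 →
      ∃ i, MvPolynomial.aeval z (MvPolynomial.pderiv i (F j)) ≠ 0) ∧
    {j | MvPolynomial.aeval z (F j) = 0}.ncard ≤ r

/-- The points `x` off `D` of height at most `B` with `κ h(x) + c ≤ m_{S,D}(x)`, as primitive
vectors. -/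
def Exceptional {N q : ℕ} (F : Fin q → MvPolynomial (Fin (N + 1)) ℤ) (d : Fin q → ℕ)
    (S : Finset ℕ) (κ c B : ℝ) : Set (Fin (N + 1) → ℤ) :=
  {x | IsPrimitive x ∧ (height x : ℝ) ≤ B ∧ (∀ j, MvPolynomial.eval x (F j) ≠ 0) ∧
    κ * Real.log (height x) + c ≤ proximity F d S x}

/-- `x` lies on a hyperplane `∑ i, a i * x i = 0` with integer coefficients `|a i| ≤ R`. -/
def OnSmallHyperplane {N : ℕ} (R : ℝ) (x : Fin (N + 1) → ℤ) : Prop :=
  ∃ a : Fin (N + 1) → ℤ, a ≠ 0 ∧ (∀ i, |(a i : ℝ)| ≤ R) ∧ ∑ i, a i * x i = 0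

theorem natAbs_le_height {N : ℕ} (x : Fin (N + 1) → ℤ) (i : Fin (N + 1)) :
    |(x i : ℝ)| ≤ height x := by
  have : (x i).natAbs ≤ height x :=
    Finset.le_sup (f := fun i => (x i).natAbs) (Finset.mem_univ i)
  have h2 : (((x i).natAbs : ℕ) : ℝ) ≤ (height x : ℝ) := by exact_mod_cast this
  rw [Nat.cast_natAbs] at h2
  push_cast at h2
  exact h2

theorem exists_height {N : ℕ} (x : Fin (N + 1) → ℤ) : ∃ i, (height x : ℝ) ≤ |(x i : ℝ)| := by
  obtain ⟨i, _, hi⟩ := Finset.exists_mem_eq_sup Finset.univ ⟨0, Finset.mem_univ _⟩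
    (fun i => (x i).natAbs)
  refine ⟨i, ?_⟩
  have h1 : (height x : ℝ) = (((x i).natAbs : ℕ) : ℝ) := by
    unfold height
    rw [hi]
  rw [h1, Nat.cast_natAbs]
  push_cast
  exact le_rfl

theorem one_le_height {N : ℕ} (x : Fin (N + 1) → ℤ) (hx : IsPrimitive x) : 1 ≤ height x := by
  rw [Nat.one_le_iff_ne_zero]
  intro h0
  have h2 : x = 0 := by
    funext i
    have h3 := natAbs_le_height x i
    rw [h0, Nat.cast_zero] at h3
    have h4 : (x i : ℝ) = 0 := abs_eq_zero.mp (le_antisymm h3 (abs_nonneg _))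
    exact_mod_cast h4
  rw [h2] at hx
  unfold IsPrimitive at hx
  have h5 : Finset.univ.gcd (0 : Fin (N + 1) → ℤ) = 0 := by
    rw [Finset.gcd_eq_zero_iff]
    intro i _
    rfl
  rw [h5] at hx
  exact zero_ne_one hx

/-- summation over dyadic shells -/
theorem dyadic {N : ℕ} (Q : (Fin (N + 1) → ℤ) → Prop) (δ η C1 B1 : ℝ) (hδ : 0 < δ) (hη : δ ≤ η)
    (hC1 : 0 ≤ C1) (hshell : ∀ B : ℝ, 2 ≤ B → B ≤ B1 → ∀ X : Finset (Fin (N + 1) → ℤ),
      (∀ x ∈ X, Q x ∧ B / 2 < (height x : ℝ) ∧ (height x : ℝ) ≤ B) → (X.card : ℝ) ≤ C1 * B ^ η) :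
    ∀ B : ℝ, 1 ≤ B → B ≤ B1 → ∀ X : Finset (Fin (N + 1) → ℤ),
      (∀ x ∈ X, Q x ∧ (height x : ℝ) ≤ B) →
        (X.card : ℝ) ≤ (3 ^ (N + 1) + C1 / (1 - (2 : ℝ) ^ (-δ))) * B ^ η := by
  classical
  have hη0 : 0 < η := by linarith
  have h2δ : (2 : ℝ) ^ (-δ) < 1 := Real.rpow_lt_one_of_one_lt_of_neg one_lt_two (by linarith)
  have h2δ0 : 0 < 1 - (2 : ℝ) ^ (-δ) := by linarith
  set C3 : ℝ := 3 ^ (N + 1) + C1 / (1 - (2 : ℝ) ^ (-δ)) with hC3
  have hC31 : (3 : ℝ) ^ (N + 1) ≤ C3 := by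
    rw [hC3]
    have : 0 ≤ C1 / (1 - (2 : ℝ) ^ (-δ)) := by positivity
    linarith
  have hC30 : 0 < C3 := lt_of_lt_of_le (by positivity) hC31
  have h2η : (2 : ℝ) ^ (-η) ≤ (2 : ℝ) ^ (-δ) :=
    Real.rpow_le_rpow_of_exponent_le one_le_two (by linarith)
  have hC32 : C1 ≤ C3 * (1 - (2 : ℝ) ^ (-η)) := by
    have h1 : C1 ≤ C3 * (1 - (2 : ℝ) ^ (-δ)) := by
      rw [hC3, add_mul, div_mul_cancel₀ _ h2δ0.ne']
      have : 0 ≤ (3 : ℝ) ^ (N + 1) * (1 - (2 : ℝ) ^ (-δ)) := by positivity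
      linarith
    refine h1.trans ?_
    apply mul_le_mul_of_nonneg_left _ hC30.le
    linarith
  have hsmall : ∀ B : ℝ, 1 ≤ B → B < 2 → ∀ X : Finset (Fin (N + 1) → ℤ),
      (∀ x ∈ X, (height x : ℝ) ≤ B) → (X.card : ℝ) ≤ C3 * B ^ η := by
    intro B hB1 hB2 X hX
    have h1 : X ⊆ Fintype.piFinset (fun _ : Fin (N + 1) => Finset.Icc (-1 : ℤ) 1) := by
      intro x hx
      rw [Fintype.mem_piFinset]
      intro i
      rw [Finset.mem_Icc]
      have h2 : (height x : ℝ) < 2 := lt_of_le_of_lt (hX x hx) hB2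
      have h3 : height x ≤ 1 := by
        have : height x < 2 := by exact_mod_cast h2
        omega
      have h4 : (x i).natAbs ≤ height x :=
        Finset.le_sup (f := fun i => (x i).natAbs) (Finset.mem_univ i)
      omega
    have h2 := Finset.card_le_card h1
    rw [Fintype.card_piFinset] at h2
    simp only [Int.card_Icc, Finset.prod_const, Finset.card_univ, Fintype.card_fin] at h2
    have h3 : (X.card : ℝ) ≤ 3 ^ (N + 1) := by
      have h4 : X.card ≤ 3 ^ (N + 1) := by simpa using h2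
      exact_mod_cast h4
    have h4 : 1 ≤ B ^ η := Real.one_le_rpow hB1 hη0.le
    calc (X.card : ℝ) ≤ C3 := h3.trans hC31
      _ ≤ C3 * B ^ η := le_mul_of_one_le_right hC30.le h4
  have key : ∀ k : ℕ, ∀ B : ℝ, 1 ≤ B → B ≤ B1 → B < 2 ^ (k + 1) →
      ∀ X : Finset (Fin (N + 1) → ℤ), (∀ x ∈ X, Q x ∧ (height x : ℝ) ≤ B) →
        (X.card : ℝ) ≤ C3 * B ^ η := by
    intro k
    induction k with
    | zero =>
      intro B hB1 _ hB2 X hX
      exact hsmall B hB1 (by simpa using hB2) X fun x hx => (hX x hx).2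
    | succ k ih =>
      intro B hB1 hBB1 hB2 X hX
      by_cases hB : B < 2
      · exact hsmall B hB1 hB X fun x hx => (hX x hx).2
      push Not at hB
      have hB0 : 0 < B := by linarith
      have h1 := ih (B / 2) (by linarith) (by linarith) (by
        rw [div_lt_iff₀ (by norm_num)]
        calc B < 2 ^ (k + 1 + 1) := hB2
          _ = 2 ^ (k + 1) * 2 := by rw [pow_succ]) (X.filter (fun x => (height x : ℝ) ≤ B / 2))
        (fun x hx => by
          obtain ⟨hx1, hx2⟩ := Finset.mem_filter.mp hx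
          exact ⟨(hX x hx1).1, hx2⟩)
      have h2 := hshell B hB hBB1 (X.filter (fun x => ¬ (height x : ℝ) ≤ B / 2)) (fun x hx => by
        obtain ⟨hx1, hx2⟩ := Finset.mem_filter.mp hx
        push Not at hx2
        exact ⟨(hX x hx1).1, hx2, (hX x hx1).2⟩)
      have h3 := Finset.card_filter_add_card_filter_not (s := X)
        (fun x => (height x : ℝ) ≤ B / 2)
      have h4 : (X.card : ℝ) = ((X.filter (fun x => (height x : ℝ) ≤ B / 2)).card : ℝ) +
          ((X.filter (fun x => ¬ (height x : ℝ) ≤ B / 2)).card : ℝ) := by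
        exact_mod_cast h3.symm
      have h5 : (B / 2) ^ η = B ^ η * (2 : ℝ) ^ (-η) := by
        rw [Real.div_rpow hB0.le (by norm_num), Real.rpow_neg (by norm_num), div_eq_mul_inv]
      rw [h4]
      rw [h5] at h1
      have h6 : 0 < B ^ η := by positivity
      have h7 := mul_le_mul_of_nonneg_right hC32 h6.le
      calc ((X.filter (fun x => (height x : ℝ) ≤ B / 2)).card : ℝ) +
          ((X.filter (fun x => ¬ (height x : ℝ) ≤ B / 2)).card : ℝ) ≤
            C3 * (B ^ η * (2 : ℝ) ^ (-η)) + C1 * B ^ η := add_le_add h1 h2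
        _ ≤ C3 * (B ^ η * (2 : ℝ) ^ (-η)) + C3 * (1 - (2 : ℝ) ^ (-η)) * B ^ η := by linarith
        _ = C3 * B ^ η := by ring
  intro B hB hBB1 X hX
  obtain ⟨k, hk⟩ := pow_unbounded_of_one_lt B (one_lt_two (α := ℝ))
  exact key k B hB hBB1 (hk.trans_le (pow_le_pow_right₀ one_le_two (by omega))) X hX

/-- the points of bounded height are finitely many -/
theorem exceptional_finite {N q : ℕ} (F : Fin q → MvPolynomial (Fin (N + 1)) ℤ) (d : Fin q → ℕ)
    (S : Finset ℕ) (κ c B : ℝ) : (Exceptional F d S κ c B).Finite := by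
  apply (Set.finite_Icc (fun _ : Fin (N + 1) => -(⌊B⌋₊ : ℤ)) (fun _ => (⌊B⌋₊ : ℤ))).subset
  intro x hx
  have h1 : height x ≤ ⌊B⌋₊ := Nat.le_floor hx.2.1
  have h2 : ∀ i, (x i).natAbs ≤ ⌊B⌋₊ := fun i =>
    (Finset.le_sup (f := fun i => (x i).natAbs) (Finset.mem_univ i)).trans h1
  rw [Set.mem_Icc]
  constructor
  · intro i
    have := h2 i
    show -(⌊B⌋₊ : ℤ) ≤ x i
    omega
  · intro i
    have := h2 i
    show x i ≤ (⌊B⌋₊ : ℤ)
    omega

/-- for strict normal crossings at most `N` components meet at a point -/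
theorem meet_of_snc {N q : ℕ} (F : Fin q → MvPolynomial (Fin (N + 1)) ℤ) (d : Fin q → ℕ)
    (hF : ∀ j, (F j).IsHomogeneous (d j)) (K : Type) [Field K] (h : NormalCrossingsOver F K) :
    MeetAtMost F N K := by
  classical
  intro z hz
  have hli := h z hz
  refine ⟨?_, ?_⟩
  · intro j hj
    have h1 := hli.ne_zero ⟨j, hj⟩
    obtain ⟨i, hi⟩ := Function.ne_iff.1 h1
    exact ⟨i, hi⟩
  · have hcard : {j | MvPolynomial.aeval z (F j) = 0}.ncard =
        Fintype.card {j : Fin q // MvPolynomial.aeval z (F j) = 0} := by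
      rw [Set.ncard_eq_toFinset_card', Set.toFinset_card]
      rfl
    rw [hcard]
    by_contra hcon
    push Not at hcon
    have hle := hli.fintype_card_le_finrank
    rw [Module.finrank_fintype_fun_eq_card, Fintype.card_fin] at hle
    have heq : Fintype.card {j : Fin q // MvPolynomial.aeval z (F j) = 0} =
        Module.finrank K (Fin (N + 1) → K) := by
      rw [Module.finrank_fintype_fun_eq_card, Fintype.card_fin]
      omega
    have hne : Nonempty {j : Fin q // MvPolynomial.aeval z (F j) = 0} := by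
      rw [← Fintype.card_pos_iff]
      omega
    have htop := hli.span_eq_top_of_card_eq_finrank' heq
    let φ : (Fin (N + 1) → K) →ₗ[K] K :=
      { toFun := fun w => ∑ i, w i * z i
        map_add' := by
          intro a b
          rw [← Finset.sum_add_distrib]
          refine Finset.sum_congr rfl fun i _ => ?_
          rw [Pi.add_apply]
          ring
        map_smul' := by
          intro a b
          rw [RingHom.id_apply, smul_eq_mul, Finset.mul_sum]
          refine Finset.sum_congr rfl fun i _ => ?_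
          rw [Pi.smul_apply, smul_eq_mul]
          ring }
    have hker : (⊤ : Submodule K (Fin (N + 1) → K)) ≤ LinearMap.ker φ := by
      rw [← htop, Submodule.span_le]
      rintro _ ⟨j, rfl⟩
      show ∑ i, MvPolynomial.aeval z (MvPolynomial.pderiv i (F j.1)) * z i = 0
      have h1 := (hF j.1).sum_X_mul_pderiv
      have h2 := congrArg (MvPolynomial.aeval z) h1
      rw [map_sum] at h2
      simp only [map_mul, MvPolynomial.aeval_X, map_nsmul, j.2, smul_zero] at h2
      refine Eq.trans ?_ h2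
      refine Finset.sum_congr rfl fun i _ => by ring
    apply hz
    funext i
    have h1 : φ (Pi.single i 1) = 0 := hker Submodule.mem_top
    have h2 : φ (Pi.single i 1) = z i := by
      show ∑ k, (Pi.single i (1 : K) : Fin (N + 1) → K) k * z k = z i
      rw [Finset.sum_eq_single i]
      · simp
      · intro k _ hk
        rw [Pi.single_eq_of_ne hk, zero_mul]
      · simp
    rw [← h2, h1]
    rfl

/-- the theorem for divisors whose components are smooth, at most `r` of them through a point -/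
theorem main (N q : ℕ) (hN : 1 ≤ N) (hq : 1 ≤ q) (F : Fin q → MvPolynomial (Fin (N + 1)) ℤ)
    (d : Fin q → ℕ) (hd : ∀ j, 1 ≤ d j) (hF : ∀ j, (F j).IsHomogeneous (d j)) (S : Finset ℕ)
    (hS : ∀ p ∈ S, p.Prime) (r : ℕ) (hr : 1 ≤ r) (hreal : MeetAtMost F r ℝ)
    (hpadic : ∀ (p : ℕ) [Fact p.Prime], p ∈ S → MeetAtMost F r ℚ_[p])
    (κ c δ : ℝ) (hκ : (r : ℝ) < κ) (hδ : 0 < δ) :
    ∃ C : ℝ, 0 < C ∧ ∀ B : ℝ, 1 ≤ B →
      (Exceptional F d S κ c B).Finite ∧
      (∀ θ : ℝ, 0 ≤ θ → θ ≤ 1 →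
        ({x ∈ Exceptional F d S κ c B | ¬ OnSmallHyperplane (C * B ^ θ) x}.ncard : ℝ) ≤
          C * B ^ ((N : ℝ) - min (κ / r - 1) θ + δ)) ∧
      ((Exceptional F d S κ c B).ncard : ℝ) ≤
        C * B ^ ((N : ℝ) - min (κ / r - 1) (min (κ / ((∑ j, d j : ℕ) : ℝ)) 1 / (N + 3)) + δ) := by
  classical
  obtain ⟨M, rfl⟩ : ∃ M, N = M + 1 := ⟨N - 1, by omega⟩
  have hr0 : (0 : ℝ) < r := by exact_mod_cast hr
  have hκ0 : 0 < κ := by linarith
  have hκr : 0 < κ / r - 1 := by
    rw [sub_pos, lt_div_iff₀ hr0]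
    linarith
  have hsm : ∀ j, ∀ v : Option {p // p ∈ S}, Pool.Agent.H41N.VP.SmoothV hS (F j) v := by
    intro j v
    cases v with
    | none => exact fun z hz h0 => (hreal z hz).1 j h0
    | some p =>
      have : Fact p.1.Prime := ⟨hS p.1 p.2⟩
      exact fun z hz h0 => (hpadic p.1 p.2 z hz).1 j h0
  have hme : ∀ v : Option {p // p ∈ S}, Pool.Agent.H41N.VP.AtMostV hS F r v := by
    intro v
    cases v with
    | none => exact fun z hz => (hreal z hz).2
    | some p =>
      have : Fact p.1.Prime := ⟨hS p.1 p.2⟩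
      exact fun z hz => (hpadic p.1 p.2 z hz).2
  obtain ⟨C1, hC1, hoff⟩ := Pool.Agent.H41N.VP.shell_off (by omega : 2 ≤ M + 1 + 1) hq F d hF S hS
    hsm r hr hme κ c δ hκ0.le hδ
  obtain ⟨C2, hC2, hon⟩ := Pool.Agent.H41N.VP.shell_on hq F d hd hF S hS κ c δ C1 hκ0.le hδ hC1
  have h2δ : (2 : ℝ) ^ (-δ) < 1 := Real.rpow_lt_one_of_one_lt_of_neg one_lt_two (by linarith)
  have h2δ0 : 0 < 1 - (2 : ℝ) ^ (-δ) := by linarith
  have h2δ1 : 1 - (2 : ℝ) ^ (-δ) ≤ 1 := by
    have : (0 : ℝ) < 2 ^ (-δ) := Real.rpow_pos_of_pos (by norm_num) _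
    linarith
  set C : ℝ := 3 ^ (M + 1 + 1) + (2 * C1 + C2) / (1 - (2 : ℝ) ^ (-δ)) with hC
  have hC0 : 0 < C := by
    have h1 : 0 ≤ (2 * C1 + C2) / (1 - (2 : ℝ) ^ (-δ)) := div_nonneg (by linarith) h2δ0.le
    have h2 : (0 : ℝ) < 3 ^ (M + 1 + 1) := by positivity
    linarith
  have hCC1 : C1 ≤ C := by
    have h1 : 2 * C1 + C2 ≤ (2 * C1 + C2) / (1 - (2 : ℝ) ^ (-δ)) := by
      rw [le_div_iff₀ h2δ0]
      nlinarith
    have h2 : (0 : ℝ) < 3 ^ (M + 1 + 1) := by positivity
    linarith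
  refine ⟨C, hC0, ?_⟩
  intro B1 hB1
  have hfin := exceptional_finite F d S κ c B1
  refine ⟨hfin, ?_, ?_⟩
  · -- off the hyperplanes
    intro θ hθ0 hθ1
    set m : ℝ := min (κ / r - 1) θ with hm
    have hm1 : m ≤ θ := min_le_right _ _
    have hfin' : {x ∈ Exceptional F d S κ c B1 | ¬ OnSmallHyperplane (C * B1 ^ θ) x}.Finite :=
      hfin.subset fun x hx => hx.1
    rw [Set.ncard_eq_toFinset_card _ hfin']
    have hdy := dyadic (N := M + 1)
      (fun x => x ∈ Exceptional F d S κ c B1 ∧ ¬ OnSmallHyperplane (C * B1 ^ θ) x)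
      δ (((M + 1 : ℕ) : ℝ) - m + δ) (2 * C1) B1 hδ (by
        push_cast
        have : (0 : ℝ) ≤ M := Nat.cast_nonneg M
        linarith) (by linarith) (by
      intro B hB hBB1 X hX
      have hB0 : 0 < B := by linarith
      have hB11 : 1 ≤ B := by linarith
      have h1 := hoff B θ hB X (by
        intro x hx
        obtain ⟨⟨⟨hx1, hx2, hx3, hx4⟩, hx5⟩, hx6, hx7⟩ := hX x hx
        refine ⟨hx1, hx3, ⟨(height x : ℝ), by exact_mod_cast one_le_height x hx1, hx6.le, hx7,
          natAbs_le_height x, exists_height x, hx4⟩, ?_⟩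
        intro a ha haB hax
        apply hx5
        refine ⟨a, ha, fun i => (haB i).trans ?_, hax⟩
        have h2 : B ^ θ ≤ B1 ^ θ := Real.rpow_le_rpow hB0.le hBB1 hθ0
        exact mul_le_mul hCC1 h2 (by positivity) hC0.le)
      refine h1.trans ?_
      have e1 : B ^ (((M + 1 + 1 : ℕ) : ℝ) - 1 - min (κ / r - 1) 1 + δ) ≤
          B ^ (((M + 1 : ℕ) : ℝ) - m + δ) := by
        apply Real.rpow_le_rpow_of_exponent_le hB11
        have : m ≤ min (κ / r - 1) 1 := min_le_min le_rfl hθ1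
        push_cast
        linarith
      have e2 : B ^ (((M + 1 + 1 : ℕ) : ℝ) - 1 - θ) ≤ B ^ (((M + 1 : ℕ) : ℝ) - m + δ) := by
        apply Real.rpow_le_rpow_of_exponent_le hB11
        push_cast
        linarith
      calc C1 * (B ^ (((M + 1 + 1 : ℕ) : ℝ) - 1 - min (κ / r - 1) 1 + δ) +
            B ^ (((M + 1 + 1 : ℕ) : ℝ) - 1 - θ)) ≤
            C1 * (B ^ (((M + 1 : ℕ) : ℝ) - m + δ) + B ^ (((M + 1 : ℕ) : ℝ) - m + δ)) :=
            mul_le_mul_of_nonneg_left (add_le_add e1 e2) (by linarith)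
        _ = 2 * C1 * B ^ (((M + 1 : ℕ) : ℝ) - m + δ) := by ring)
      B1 hB1 le_rfl hfin'.toFinset (by
        intro x hx
        have h1 := (Set.Finite.mem_toFinset hfin').1 hx
        exact ⟨h1, h1.1.2.1⟩)
    refine hdy.trans ?_
    apply mul_le_mul_of_nonneg_right _ (by positivity)
    rw [hC]
    apply add_le_add le_rfl
    apply div_le_div_of_nonneg_right _ h2δ0.le
    linarith
  · -- all points
    set D : ℝ := ((∑ j, d j : ℕ) : ℝ) with hD
    set μ : ℝ := min (κ / D) 1 with hμ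
    have hD0 : 0 ≤ D := Nat.cast_nonneg _
    have hμ0 : 0 ≤ μ := le_min (div_nonneg hκ0.le hD0) zero_le_one
    have hμ1 : μ ≤ 1 := min_le_right _ _
    have hM3 : (0 : ℝ) < ((M + 1 : ℕ) : ℝ) + 3 := by positivity
    set θ : ℝ := μ / (((M + 1 : ℕ) : ℝ) + 3) with hθ
    have hθ0 : 0 ≤ θ := div_nonneg hμ0 hM3.le
    have hθ1 : θ ≤ 1 := by
      rw [hθ, div_le_one hM3]
      have : (0 : ℝ) ≤ ((M + 1 : ℕ) : ℝ) := Nat.cast_nonneg _
      linarith
    have hθM : (((M + 1 : ℕ) : ℝ) + 3) * θ = μ := by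
      rw [hθ]
      field_simp
    set m : ℝ := min (κ / r - 1) θ with hm
    have hm1 : m ≤ θ := min_le_right _ _
    rw [Set.ncard_eq_toFinset_card _ hfin]
    have hdy := dyadic (N := M + 1) (fun x => x ∈ Exceptional F d S κ c B1)
      δ (((M + 1 : ℕ) : ℝ) - m + δ) (2 * C1 + C2) B1 hδ (by
        push_cast
        have : (0 : ℝ) ≤ M := Nat.cast_nonneg M
        linarith) (by linarith) (by
      intro B hB hBB1 X hX
      have hB0 : 0 < B := by linarith
      have hB11 : 1 ≤ B := by linarith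
      have h1 := hoff B θ hB (X.filter (fun x => ¬ OnSmallHyperplane (C1 * B ^ θ) x)) (by
        intro x hx
        obtain ⟨hxX, hx5⟩ := Finset.mem_filter.1 hx
        obtain ⟨⟨hx1, hx2, hx3, hx4⟩, hx6, hx7⟩ := hX x hxX
        refine ⟨hx1, hx3, ⟨(height x : ℝ), by exact_mod_cast one_le_height x hx1, hx6.le, hx7,
          natAbs_le_height x, exists_height x, hx4⟩, ?_⟩
        intro a ha haB hax
        exact hx5 ⟨a, ha, haB, hax⟩)
      have h2 := hon B θ hB hθ0 hθ1 (X.filter (fun x => OnSmallHyperplane (C1 * B ^ θ) x)) (by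
        intro x hx
        obtain ⟨hxX, a, ha, haB, hax⟩ := Finset.mem_filter.1 hx
        obtain ⟨⟨hx1, hx2, hx3, hx4⟩, hx6, hx7⟩ := hX x hxX
        exact ⟨hx3, ⟨(height x : ℝ), by exact_mod_cast one_le_height x hx1, hx7,
          natAbs_le_height x, hx4⟩, a, ha, haB, hax⟩)
      have h3 := Finset.card_filter_add_card_filter_not (s := X)
        (fun x => OnSmallHyperplane (C1 * B ^ θ) x)
      have h4 : (X.card : ℝ) =
          ((X.filter (fun x => OnSmallHyperplane (C1 * B ^ θ) x)).card : ℝ) +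
          ((X.filter (fun x => ¬ OnSmallHyperplane (C1 * B ^ θ) x)).card : ℝ) := by
        exact_mod_cast h3.symm
      have e1 : B ^ (((M + 1 + 1 : ℕ) : ℝ) - 1 - min (κ / r - 1) 1 + δ) ≤
          B ^ (((M + 1 : ℕ) : ℝ) - m + δ) := by
        apply Real.rpow_le_rpow_of_exponent_le hB11
        have : m ≤ min (κ / r - 1) 1 := min_le_min le_rfl hθ1
        push_cast
        linarith
      have e2 : B ^ (((M + 1 + 1 : ℕ) : ℝ) - 1 - θ) ≤ B ^ (((M + 1 : ℕ) : ℝ) - m + δ) := by
        apply Real.rpow_le_rpow_of_exponent_le hB11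
        push_cast
        linarith
      have e3 : B ^ (((M + 1 : ℕ) : ℝ) + ((M + 3 : ℕ) : ℝ) * θ - μ + δ) ≤
          B ^ (((M + 1 : ℕ) : ℝ) - m + δ) := by
        apply Real.rpow_le_rpow_of_exponent_le hB11
        rw [← hθM]
        push_cast
        linarith
      have e4 : C1 * (B ^ (((M + 1 + 1 : ℕ) : ℝ) - 1 - min (κ / r - 1) 1 + δ) +
            B ^ (((M + 1 + 1 : ℕ) : ℝ) - 1 - θ)) ≤ 2 * C1 * B ^ (((M + 1 : ℕ) : ℝ) - m + δ) := by
        calc C1 * (B ^ (((M + 1 + 1 : ℕ) : ℝ) - 1 - min (κ / r - 1) 1 + δ) +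
            B ^ (((M + 1 + 1 : ℕ) : ℝ) - 1 - θ)) ≤
            C1 * (B ^ (((M + 1 : ℕ) : ℝ) - m + δ) + B ^ (((M + 1 : ℕ) : ℝ) - m + δ)) :=
              mul_le_mul_of_nonneg_left (add_le_add e1 e2) (by linarith)
          _ = 2 * C1 * B ^ (((M + 1 : ℕ) : ℝ) - m + δ) := by ring
      have e5 := mul_le_mul_of_nonneg_left e3 (by linarith : (0 : ℝ) ≤ C2)
      rw [h4]
      linarith)
      B1 hB1 le_rfl hfin.toFinset (by
        intro x hx
        have h1 := (Set.Finite.mem_toFinset hfin).1 hx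
        exact ⟨h1, h1.2.1⟩)
    exact hdy

/-- many exceptional points in a hyperplane, for one smooth hypersurface of every degree -/
theorem lower (N d : ℕ) (κ c : ℝ) (hN : 2 ≤ N) (hd : 2 ≤ d) (hκ : 0 < κ) (hκd : κ < d) :
    ∃ F : MvPolynomial (Fin (N + 1)) ℤ, F.IsHomogeneous d ∧
      (∀ (K : Type) [Field K] [CharZero K], NormalCrossingsOver (fun _ : Fin 1 => F) K) ∧
      ∃ c' : ℝ, 0 < c' ∧ ∃ B0 : ℝ, ∀ (S : Finset ℕ) (B : ℝ), B0 ≤ B →
        c' * B ^ ((N : ℝ) - (N - 1) * κ / d) ≤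
          ({x ∈ Exceptional (fun _ : Fin 1 => F) (fun _ => d) S κ c B |
            x (Fin.last N) = 0}.ncard : ℝ) := by
  classical
  have hdR : (0 : ℝ) < d := by
    have : 0 < d := by omega
    exact_mod_cast this
  have hNR : (0 : ℝ) < N := by
    have : 0 < N := by omega
    exact_mod_cast this
  refine ⟨Pool.Agent.H41N.VP.FN N d, Pool.Agent.H41N.VP.FN_hom N d (by omega), ?_, ?_⟩
  · intro K _ _ z hz
    have hsub : Subsingleton {j : Fin 1 // MvPolynomial.aeval z
        ((fun _ : Fin 1 => Pool.Agent.H41N.VP.FN N d) j) = 0} :=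
      ⟨fun a b => Subtype.ext (Subsingleton.elim _ _)⟩
    rw [linearIndependent_subsingleton_index_iff]
    intro j h0
    obtain ⟨k, hk⟩ := Pool.Agent.H41N.VP.FN_smooth (by omega : 1 ≤ N) hd z hz
    exact hk (congrFun h0 k)
  set ρ : ℝ := (Real.exp (-c) / N) ^ ((1 : ℝ) / d) with hρ
  have hρ0 : 0 < ρ := by positivity
  have hρd : N * ρ ^ d = Real.exp (-c) := by
    rw [hρ, ← Real.rpow_natCast, ← Real.rpow_mul (by positivity), one_div,
      inv_mul_cancel₀ hdR.ne', Real.rpow_one]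
    field_simp
  obtain ⟨c', hc', B0, hB0⟩ := Pool.Agent.H41N.VP.low_choice N hN κ d ρ hκ hκd hρ0
  refine ⟨c', hc', B0, ?_⟩
  intro S B hB
  obtain ⟨A, M, hM1, hMA, hAB, hMρ, hcount⟩ := hB0 B hB
  obtain ⟨X, hXc, hX⟩ := Pool.Agent.H41N.VP.low_vectors N hN A M hM1 hMA
  obtain ⟨h01, h1l⟩ := Pool.Agent.H41N.VP.one_ne N hN
  refine hcount.trans (hXc.trans ?_)
  have hfin : {x ∈ Exceptional (fun _ : Fin 1 => Pool.Agent.H41N.VP.FN N d) (fun _ => d) S κ c B |
      x (Fin.last N) = 0}.Finite := (exceptional_finite _ _ S κ c B).subset fun x hx => hx.1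
  rw [← Set.ncard_coe_finset]
  have hsub : (X : Set (Fin (N + 1) → ℤ)) ⊆
      {x ∈ Exceptional (fun _ : Fin 1 => Pool.Agent.H41N.VP.FN N d) (fun _ => d) S κ c B |
      x (Fin.last N) = 0} := by
    intro x hx
    obtain ⟨p1, p2, p3, p4, p5, p6⟩ := hX x hx
    have hA1 : 1 ≤ A := by omega
    -- the height
    have hht : (height x : ℤ) = x 0 := by
      have h1 : height x = (x 0).natAbs := by
        apply le_antisymm
        · apply Finset.sup_le
          intro i _
          by_cases hi : i = 0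
          · rw [hi]
          · have := p4 i hi
            omega
        · exact Finset.le_sup (f := fun i => (x i).natAbs) (Finset.mem_univ 0)
      rw [h1]
      omega
    have hhtR : (height x : ℝ) = (x 0 : ℝ) := by exact_mod_cast hht
    have hx0A : (A : ℝ) < (x 0 : ℝ) := by exact_mod_cast p1
    have hAR : (0 : ℝ) < A := by exact_mod_cast hA1
    have hx00 : (0 : ℝ) < (x 0 : ℝ) := by linarith
    -- the value of the form
    have hev := Pool.Agent.H41N.VP.FN_eval (d := d) x p3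
    set G : ℤ := ∑ i ∈ Finset.univ.erase 0, x i ^ d with hG
    have hG1 : 0 < G := by
      rw [hG]
      apply Finset.sum_pos'
      · intro i hi
        exact pow_nonneg (p4 i (Finset.ne_of_mem_erase hi)).1 d
      · exact ⟨1, Finset.mem_erase.2 ⟨h01, Finset.mem_univ _⟩, by positivity⟩
    have hG2 : (G : ℝ) ≤ N * (M : ℝ) ^ d := by
      rw [hG]
      push_cast
      calc ∑ i ∈ Finset.univ.erase 0, (x i : ℝ) ^ d ≤
            ∑ _i ∈ Finset.univ.erase (0 : Fin (N + 1)), (M : ℝ) ^ d := by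
            apply Finset.sum_le_sum
            intro i hi
            have h1 := p4 i (Finset.ne_of_mem_erase hi)
            apply pow_le_pow_left₀
            · exact_mod_cast h1.1
            · exact_mod_cast h1.2
        _ = N * (M : ℝ) ^ d := by
            rw [Finset.sum_const, Finset.card_erase_of_mem (Finset.mem_univ _), Finset.card_univ,
              Fintype.card_fin, nsmul_eq_mul]
            norm_num
    have hG3 : (G : ℝ) ≤ Real.exp (-c) * (A : ℝ) ^ ((d : ℝ) - κ) := by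
      refine hG2.trans ?_
      have h1 : (M : ℝ) ^ d ≤ (ρ * (A : ℝ) ^ (1 - κ / d)) ^ d :=
        pow_le_pow_left₀ (Nat.cast_nonneg M) hMρ d
      have h2 : ((A : ℝ) ^ (1 - κ / (d : ℝ))) ^ d = (A : ℝ) ^ ((d : ℝ) - κ) := by
        rw [← Real.rpow_natCast, ← Real.rpow_mul hAR.le]
        congr 1
        field_simp
      rw [mul_pow, h2] at h1
      calc N * (M : ℝ) ^ d ≤ N * (ρ ^ d * (A : ℝ) ^ ((d : ℝ) - κ)) :=
            mul_le_mul_of_nonneg_left h1 hNR.le
        _ = _ := by rw [← hρd]; ring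
    have hGR : (0 : ℝ) < G := by exact_mod_cast hG1
    refine ⟨⟨?_, ?_, ?_, ?_⟩, p3⟩
    · unfold IsPrimitive
      have h1 : Finset.univ.gcd x ∣ x 0 := Finset.gcd_dvd (Finset.mem_univ 0)
      have h2 : Finset.univ.gcd x ∣ x 1 := Finset.gcd_dvd (Finset.mem_univ 1)
      have h3 : IsUnit (Finset.univ.gcd x) := p6.isUnit_of_dvd' h1 h2
      rw [← Finset.normalize_gcd]
      exact normalize_eq_one.2 h3
    · rw [hhtR]
      have h1 : (x 0 : ℝ) ≤ 2 * A := by exact_mod_cast p2
      linarith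
    · intro j
      rw [hev]
      exact hG1.ne'
    · unfold proximity
      rw [Fin.sum_univ_one, hev, hhtR]
      have hS0 : 0 ≤ ∑ p ∈ S, (padicValInt p G : ℝ) * Real.log p := by
        apply Finset.sum_nonneg
        intro p _
        have : 0 ≤ Real.log (p : ℝ) := Real.log_natCast_nonneg p
        positivity
      have h1 : Real.log |(G : ℝ)| ≤ -c + ((d : ℝ) - κ) * Real.log A := by
        rw [abs_of_pos hGR]
        have h2 := Real.log_le_log hGR hG3
        rwa [Real.log_mul (Real.exp_pos _).ne' (Real.rpow_pos_of_pos hAR _).ne', Real.log_exp,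
          Real.log_rpow hAR] at h2
      have h2 : Real.log A ≤ Real.log (x 0 : ℝ) := Real.log_le_log hAR hx0A.le
      have h3 : ((d : ℝ) - κ) * Real.log A ≤ ((d : ℝ) - κ) * Real.log (x 0 : ℝ) :=
        mul_le_mul_of_nonneg_left h2 (by linarith)
      rw [Real.log_div (by positivity) (abs_pos.2 hGR.ne').ne', Real.log_pow]
      linarith
  exact_mod_cast Set.ncard_le_ncard hsub hfin

/-- **Main theorem.** Let `D = ∑ j, {F j = 0}` be a divisor of `ℙ^N` over `ℚ`, `N ≥ 1`, with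
components of degrees `d j ≥ 1`, `S` a finite set of primes, `c` real and `δ > 0`.

(1) Suppose that over `ℝ` and over `ℚ_p`, `p ∈ S`, every component is smooth and at most `r` of them
pass through any point (they may be tangent), and let `κ > r`. Then among the points off `D` of
height at most `B` with `κ h(x) + c ≤ m_{S,D}(x)`

* at most `C * B ^ (N - min (κ / r - 1) θ + δ)` lie off the hyperplanes of height at most
  `C * B ^ θ`, for every `θ` in `[0, 1]`;
* altogether there are at most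
  `C * B ^ (N - min (κ / r - 1) (min (κ / deg D) 1 / (N + 3)) + δ)`.

(2) If `D` has strict normal crossings over `ℝ` and over `ℚ_p`, `p ∈ S`, this holds with `r = N`, for
every `κ > N`.

(3) A saving which does not tend to `0` with `1 / deg D` is impossible, even for one smooth
hypersurface: for `N ≥ 2`, `d ≥ 2`, `0 < κ < d` there is a form of degree `d` with integer
coefficients, smooth over every field of characteristic `0`, for which at least
`c' * B ^ (N - (N - 1) * κ / d)` such points lie in one hyperplane, for all large `B`. -/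
theorem result :
    (∀ (N q : ℕ), 1 ≤ N → 1 ≤ q → ∀ (F : Fin q → MvPolynomial (Fin (N + 1)) ℤ) (d : Fin q → ℕ),
      (∀ j, 1 ≤ d j) → (∀ j, (F j).IsHomogeneous (d j)) → ∀ S : Finset ℕ, (∀ p ∈ S, p.Prime) →
      ∀ c δ : ℝ, 0 < δ →
      (∀ r : ℕ, 1 ≤ r → MeetAtMost F r ℝ →
        (∀ (p : ℕ) [Fact p.Prime], p ∈ S → MeetAtMost F r ℚ_[p]) → ∀ κ : ℝ, (r : ℝ) < κ →
        ∃ C : ℝ, 0 < C ∧ ∀ B : ℝ, 1 ≤ B →
          (Exceptional F d S κ c B).Finite ∧
          (∀ θ : ℝ, 0 ≤ θ → θ ≤ 1 →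
            ({x ∈ Exceptional F d S κ c B | ¬ OnSmallHyperplane (C * B ^ θ) x}.ncard : ℝ) ≤
              C * B ^ ((N : ℝ) - min (κ / r - 1) θ + δ)) ∧
          ((Exceptional F d S κ c B).ncard : ℝ) ≤
            C * B ^ ((N : ℝ) - min (κ / r - 1) (min (κ / ((∑ j, d j : ℕ) : ℝ)) 1 / (N + 3)) +
              δ)) ∧
      (NormalCrossingsOver F ℝ →
        (∀ (p : ℕ) [Fact p.Prime], p ∈ S → NormalCrossingsOver F ℚ_[p]) → ∀ κ : ℝ, (N : ℝ) < κ →
        ∃ C : ℝ, 0 < C ∧ ∀ B : ℝ, 1 ≤ B →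
          (Exceptional F d S κ c B).Finite ∧
          (∀ θ : ℝ, 0 ≤ θ → θ ≤ 1 →
            ({x ∈ Exceptional F d S κ c B | ¬ OnSmallHyperplane (C * B ^ θ) x}.ncard : ℝ) ≤
              C * B ^ ((N : ℝ) - min (κ / N - 1) θ + δ)) ∧
          ((Exceptional F d S κ c B).ncard : ℝ) ≤
            C * B ^ ((N : ℝ) - min (κ / N - 1) (min (κ / ((∑ j, d j : ℕ) : ℝ)) 1 / (N + 3)) +
              δ))) ∧
    (∀ (N d : ℕ) (κ c : ℝ), 2 ≤ N → 2 ≤ d → 0 < κ → κ < d →
      ∃ F : MvPolynomial (Fin (N + 1)) ℤ, F.IsHomogeneous d ∧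
        (∀ (K : Type) [Field K] [CharZero K], NormalCrossingsOver (fun _ : Fin 1 => F) K) ∧
        ∃ c' : ℝ, 0 < c' ∧ ∃ B0 : ℝ, ∀ (S : Finset ℕ) (B : ℝ), B0 ≤ B →
          c' * B ^ ((N : ℝ) - (N - 1) * κ / d) ≤
            ({x ∈ Exceptional (fun _ : Fin 1 => F) (fun _ => d) S κ c B |
              x (Fin.last N) = 0}.ncard : ℝ)) := by
  refine ⟨?_, fun N d κ c hN hd hκ hκd => lower N d κ c hN hd hκ hκd⟩
  intro N q hN hq F d hd hF S hS c δ hδ
  refine ⟨?_, ?_⟩
  · intro r hr hreal hpadic κ hκ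
    exact main N q hN hq F d hd hF S hS r hr hreal hpadic κ c δ hκ hδ
  · intro hreal hpadic κ hκ
    exact main N q hN hq F d hd hF S hS N hN (meet_of_snc F d hF ℝ hreal)
      (fun p _ hp => meet_of_snc F d hF ℚ_[p] (hpadic p hp)) κ c δ hκ hδ

end Pool.Agent.Results.MP_17a322_nt.PowerSaving
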